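import Pool.Agent.Q25.GReg4

/-!
# Narrow progressions in ARBITRARY sets of `x` with `x` and `n - f(x)` prime, uniformly in ALL admissible `f` and ALL odd `n`

For all large `X`, ALL admissible `f = x ^ 2 + b x + c` and ALL odd integers `n` (of any size), all intervals `(u, u + Y]` with
`X ^ θ ≤ Y ≤ X` and EVERY set `A` of integers `x` such that neither `x` nor `n - f(x)` has a prime factor `≤ X ^ (1/r)` (for
example any set of primes `p₁` for which `n - f(p₁)` is a prime, both larger than `X ^ (1/r)`): all elements of `A` in the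
interval, with at most `ε Y V` exceptions, are terms of `l`-term progressions in `A ∩ (u, u + Y]` with a difference of at
most a fixed power of `log X`.
-/

set_option autoImplicit false

namespace Pool.Agent.Results.MP_d9bc60_nt.NarrowProgressions

open Finset

/-- neither `x` nor `n - (x ^ 2 + b x + c)` has a prime factor `≤ X ^ (1 / r)` -/
def Rough (b c n : ℤ) (r X x : ℕ) : Prop :=
  ∀ p : ℕ, p.Prime → (p : ℝ) ≤ (X : ℝ) ^ (1 / (r : ℝ)) →
    ¬ (p : ℤ) ∣ (x : ℤ) ∧ ¬ (p : ℤ) ∣ n - ((x : ℤ) ^ 2 + b * x + c)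

open Classical in
/-- the number of the `x` modulo `p` for which `p` divides `x` or `n - (x ^ 2 + b x + c)` -/
noncomputable def nu (b c n : ℤ) (p : ℕ) : ℕ :=
  ((range p).filter (fun x : ℕ => (p : ℤ) ∣ (x : ℤ) ∨ (p : ℤ) ∣ n - ((x : ℤ) ^ 2 + b * x + c))).card

/-- the product of `1 - ν(p) / p` over the primes `p ≤ X ^ (1 / r)` -/
noncomputable def V (b c n : ℤ) (r X : ℕ) : ℝ :=
  ∏ p ∈ (Icc 1 ⌊(X : ℝ) ^ (1 / (r : ℝ))⌋₊).filter Nat.Prime, (1 - (nu b c n p : ℝ) / p)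

/-- `n` is a term of an `l`-term arithmetic progression contained in `A ∩ (u, v]`, with difference in `[1, D]` -/
def OnProgression (A : Set ℕ) (l : ℕ) (D : ℝ) (u v n : ℕ) : Prop :=
  ∃ m d : ℕ, 1 ≤ d ∧ (d : ℝ) ≤ D ∧ (∀ i < l, m + i * d ∈ A ∧ u < m + i * d ∧ m + i * d ≤ v) ∧ ∃ i < l, n = m + i * d

/-- all elements of `A` in `(u, v]` with at most `t` exceptions are terms of such progressions -/
def NearlyAll (A : Set ℕ) (l : ℕ) (D : ℝ) (u v : ℕ) (t : ℝ) : Prop :=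
  ({n : ℕ | u < n ∧ n ≤ v ∧ n ∈ A ∧ ¬ OnProgression A l D u v n}.ncard : ℝ) ≤ t

open Classical in
/-- the excluded classes -/
noncomputable def Z (b c n : ℤ) (p : ℕ) : Finset ℕ :=
  (range p).filter (fun x : ℕ => (p : ℤ) ∣ (x : ℤ) ∨ (p : ℤ) ∣ n - ((x : ℤ) ^ 2 + b * x + c))

lemma roots2 (b c n : ℤ) (p : ℕ) (hp : p.Prime) :
    ((range p).filter (fun m : ℕ => (p : ℤ) ∣ n - ((m : ℤ) ^ 2 + b * m + c))).card ≤ 2 := by
  classical
  rcases ((range p).filter (fun m : ℕ => (p : ℤ) ∣ n - ((m : ℤ) ^ 2 + b * m + c))).eq_empty_or_nonempty with h0 | ⟨m, hm⟩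
  · rw [h0]
    simp
  · have hsub : (range p).filter (fun m : ℕ => (p : ℤ) ∣ n - ((m : ℤ) ^ 2 + b * m + c)) ⊆
        {m, ((-b - m) % p).toNat} := by
      intro k hk
      rw [mem_filter, mem_range] at hm hk
      have h3 : (p : ℤ) ∣ ((k : ℤ) - m) * (k + m + b) := by
        have e : ((k : ℤ) - m) * (k + m + b) = (n - ((m : ℤ) ^ 2 + b * m + c)) - (n - ((k : ℤ) ^ 2 + b * k + c)) := by
          ring
        rw [e]
        exact dvd_sub hm.2 hk.2
      rw [mem_insert, mem_singleton]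
      rcases (Nat.prime_iff_prime_int.1 hp).dvd_or_dvd h3 with h4 | h4
      · left
        have h5 : (m : ℤ) ≡ k [ZMOD p] := Int.modEq_iff_dvd.2 h4
        have h6 : m ≡ k [MOD p] := (Int.natCast_modEq_iff).1 h5
        unfold Nat.ModEq at h6
        rw [Nat.mod_eq_of_lt hm.1, Nat.mod_eq_of_lt hk.1] at h6
        exact h6.symm
      · right
        have h5 : (-b - m : ℤ) ≡ k [ZMOD p] := by
          rw [Int.modEq_iff_dvd]
          have e : (k : ℤ) - (-b - m) = k + m + b := by ring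
          rw [e]
          exact h4
        have h6 : (-b - m : ℤ) % p = k := by
          have h7 : (k : ℤ) % p = k := Int.emod_eq_of_lt (by positivity) (by exact_mod_cast hk.1)
          rw [← h7]
          exact h5
        rw [h6]
        simp
    exact (card_le_card hsub).trans card_le_two

lemma adm {b c n : ℤ} (hbc : Odd (b + c)) (h3 : ¬ (3 : ℤ) ∣ b) (hn : Odd n) (p : ℕ) (hp : p.Prime) :
    ∃ x : ℤ, ¬ (p : ℤ) ∣ x ∧ ¬ (p : ℤ) ∣ n - (x ^ 2 + b * x + c) := by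
  obtain ⟨w, hw⟩ := hbc
  obtain ⟨v, hv⟩ := hn
  rcases Nat.lt_or_ge 3 p with h5 | h5
  · by_contra hcon
    push Not at hcon
    have hbad : ∀ x : ℤ, 1 ≤ x → x ≤ 3 → (p : ℤ) ∣ n - (x ^ 2 + b * x + c) := by
      intro x hx1 hx4
      refine hcon x (fun hd => ?_)
      have := Int.le_of_dvd (by omega) hd
      omega
    have e1 := hbad 1 (by norm_num) (by norm_num)
    have e2 := hbad 2 (by norm_num) (by norm_num)
    have e3 := hbad 3 (by norm_num) (by norm_num)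
    have e4 : (p : ℤ) ∣ 2 := by
      have e5 := dvd_sub (dvd_sub e2 e1) (dvd_sub e3 e2)
      have e6 : (n - ((2 : ℤ) ^ 2 + b * 2 + c) - (n - (1 ^ 2 + b * 1 + c))) -
          (n - (3 ^ 2 + b * 3 + c) - (n - (2 ^ 2 + b * 2 + c))) = 2 := by ring
      rwa [e6] at e5
    have := Int.le_of_dvd (by norm_num) e4
    omega
  · have hp23 : p = 2 ∨ p = 3 := by
      have := hp.two_le
      omega
    rcases hp23 with rfl | rfl
    · refine ⟨1, by omega, ?_⟩
      have e : n - (1 ^ 2 + b * 1 + c) = n - 1 - (b + c) := by ring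
      rw [e]
      omega
    · by_cases h6 : ((3 : ℕ) : ℤ) ∣ n - (1 ^ 2 + b * 1 + c)
      · refine ⟨2, by omega, fun h7 => h3 ?_⟩
        have e8 := dvd_sub h6 h7
        have e9 : (n - ((1 : ℤ) ^ 2 + b * 1 + c)) - (n - (2 ^ 2 + b * 2 + c)) = b + 3 := by ring
        rw [e9] at e8
        omega
      · exact ⟨1, by omega, h6⟩

lemma Z_cls {b c n : ℤ} (hbc : Odd (b + c)) (h3 : ¬ (3 : ℤ) ∣ b) (hn : Odd n) :
    Pool.Agent.Q25.GReg.Cls 3 (Z b c n) := by
  classical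
  intro p hp
  refine ⟨?_, ?_, fun m hm => ?_⟩
  · have hsub : Z b c n p ⊆ insert 0 ((range p).filter (fun m : ℕ => (p : ℤ) ∣ n - ((m : ℤ) ^ 2 + b * m + c))) := by
      intro m hm
      unfold Z at hm
      rw [mem_filter, mem_range] at hm
      rw [mem_insert, mem_filter, mem_range]
      rcases hm.2 with h | h
      · left
        have h1 : p ∣ m := by exact_mod_cast h
        exact Nat.eq_zero_of_dvd_of_lt h1 hm.1
      · exact Or.inr ⟨hm.1, h⟩
    have h1 := (card_le_card hsub).trans (card_insert_le _ _)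
    have h2 := roots2 b c n p hp
    omega
  · obtain ⟨x, hx1, hx2⟩ := adm hbc h3 hn p hp
    have hp0 : (p : ℤ) ≠ 0 := by exact_mod_cast hp.ne_zero
    obtain ⟨y, hy⟩ := Int.eq_ofNat_of_zero_le (Int.emod_nonneg x hp0)
    have hyx : (y : ℤ) ≡ x [ZMOD p] := by
      rw [← hy]
      exact Int.mod_modEq _ _
    have hyp : y < p := by
      have := Int.emod_lt_of_pos x (by exact_mod_cast hp.pos : (0 : ℤ) < p)
      rw [hy] at this
      exact_mod_cast this
    have hy' : y ∉ Z b c n p := by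
      unfold Z
      rw [mem_filter]
      rintro ⟨_, h | h⟩
      · exact hx1 (hyx.dvd_iff.1 h)
      · apply hx2
        have h4 : n - ((y : ℤ) ^ 2 + b * y + c) ≡ n - (x ^ 2 + b * x + c) [ZMOD p] :=
          (Int.ModEq.refl n).sub ((((hyx.pow 2).add (hyx.mul_left b))).add_right c)
        exact h4.dvd_iff.1 h
    have hsub : Z b c n p ⊆ (range p).erase y := by
      intro m hm
      rw [mem_erase]
      refine ⟨fun h => hy' (h ▸ hm), ?_⟩
      unfold Z at hm
      exact (mem_filter.1 hm).1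
    have h5 := card_le_card hsub
    rw [card_erase_of_mem (mem_range.2 hyp), card_range] at h5
    have := hp.pos
    omega
  · unfold Z at hm
    rw [mem_filter, mem_range] at hm
    exact hm.1

lemma V_eq (b c n : ℤ) (r X : ℕ) : V b c n r X =
    Pool.Agent.Y843.HS.VV (Z b c n) 0 ⌊(X : ℝ) ^ (1 / (r : ℝ))⌋₊ := by
  unfold V Pool.Agent.Y843.HS.VV
  apply prod_congr
  · ext q
    rw [Pool.Agent.Y843.HS.Pr_mem, mem_filter, mem_Icc]
    constructor
    · rintro ⟨⟨a, b⟩, c⟩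
      exact ⟨⟨c.pos, b⟩, c⟩
    · rintro ⟨⟨a, b⟩, c⟩
      exact ⟨⟨c.pos, b⟩, c⟩
  · intro q _
    rfl

/-- Let `l, r ≥ 1` and `θ, ε > 0`. There are `B`, `X₀` such that for all `X ≥ X₀`, ALL integers `b, c, n` with `b + c` and `n`
odd and `3 ∤ b` (that is: all admissible `f = x ^ 2 + b x + c` and all odd `n`), all intervals `(u, u + Y]` with
`X ^ θ ≤ Y ≤ X` and EVERY set `A` of natural numbers `x` such that neither `x` nor `n - f(x)` has a prime factor
`≤ X ^ (1/r)`, all elements of `A` in `(u, u + Y]`, with at most `ε Y V` exceptions, are terms of `l`-term progressions in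
`A ∩ (u, u + Y]` with a difference in `[1, (log X) ^ B]`. -/
theorem result (l r : ℕ) (hl : 1 ≤ l) (hr : 1 ≤ r) (θ ε : ℝ) (hθ : 0 < θ) (hε : 0 < ε) :
    ∃ B X₀ : ℕ, ∀ X : ℕ, X₀ ≤ X → ∀ b c n : ℤ, Odd (b + c) → ¬ (3 : ℤ) ∣ b → Odd n →
      ∀ u Y : ℕ, (X : ℝ) ^ θ ≤ Y → Y ≤ X → ∀ A : Set ℕ, (∀ x ∈ A, Rough b c n r X x) →
        NearlyAll A l (Real.log X ^ B) u (u + Y) (ε * (Y * V b c n r X)) := by
  classical
  obtain ⟨B, n1, h1⟩ := Pool.Agent.Q25.GReg.narrowZ hl 3 r hr hθ hε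
  refine ⟨B, n1, fun X hX b c n hbc h3 hn u Y hXY hYX A hA => ?_⟩
  have h2 := h1 X hX _ (Z_cls hbc h3 hn) u Y hXY hYX ((Ioc u (u + Y)).filter (fun x => x ∈ A))
    (filter_subset _ _) (by
      intro x hx p hp hpX hcon
      rw [mem_filter] at hx
      have h4 := hA x hx.2 p hp hpX
      unfold Z at hcon
      rw [mem_filter] at hcon
      have h5 : ((x % p : ℕ) : ℤ) ≡ x [ZMOD p] := by
        rw [Int.natCast_mod]
        exact Int.mod_modEq _ _
      rcases hcon.2 with h6 | h6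
      · exact h4.1 (h5.dvd_iff.1 h6)
      · apply h4.2
        have h7 : n - (((x % p : ℕ) : ℤ) ^ 2 + b * ((x % p : ℕ) : ℤ) + c) ≡ n - ((x : ℤ) ^ 2 + b * x + c) [ZMOD p] :=
          (Int.ModEq.refl n).sub ((((h5.pow 2).add (h5.mul_left b))).add_right c)
        exact h7.dvd_iff.1 h6)
  rw [← V_eq] at h2
  unfold NearlyAll
  refine le_trans (le_of_eq ?_) h2
  rw [← Set.ncard_coe_finset]
  congr 2
  ext x
  unfold Pool.Agent.Y843.HG.Iso
  rw [mem_coe, mem_filter, mem_filter, mem_Ioc]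
  constructor
  · rintro ⟨g1, g2, g3, g4⟩
    refine ⟨⟨⟨g1, g2⟩, g3⟩, fun hcon => g4 ?_⟩
    obtain ⟨m, d, e1, e2, e3, e4⟩ := hcon
    refine ⟨m, d, e1, e2, fun i hi => ?_, e4⟩
    have e5 := e3 i hi
    rw [mem_filter, mem_Ioc] at e5
    exact ⟨e5.2, e5.1.1, e5.1.2⟩
  · rintro ⟨⟨⟨g1, g2⟩, g3⟩, g4⟩
    refine ⟨g1, g2, g3, fun hcon => g4 ?_⟩
    obtain ⟨m, d, e1, e2, e3, e4⟩ := hcon
    refine ⟨m, d, e1, e2, fun i hi => ?_, e4⟩
    obtain ⟨e5, e6, e7⟩ := e3 i hi
    rw [mem_filter, mem_Ioc]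
    exact ⟨⟨e6, e7⟩, e5⟩

end Pool.Agent.Results.MP_d9bc60_nt.NarrowProgressions
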