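import Pool.Agent.Q315.RD2

/-!
# All odd numbers as `f(m) + l` with almost primes `m`, `l` and restricted digits of `m`, uniformly in the quadratic polynomial `f`

Let `g ≥ 2` be a base and `K` a large number of digits. For every `i < K` let `A i` be an arbitrary non-empty set of digits. Nothing
is assumed about these sets except that they are not too small on average: the number `|A 0| ⋯ |A (K - 1)|` of the integers
`t < g ^ K` whose `i`-th digit belongs to `A i` for all `i < K` is at least `exp (- c₀ K) g ^ K`, where `c₀ > 0` does not depend on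
the base (`Rich`; for example, a digit is missing everywhere and the base is large, or the digits at an arbitrary set of at most
`c' K` places are prescribed).

Let `f = X ^ 2 + b X + c` be ANY admissible polynomial (`b` and `c` have different parities and `3` does not divide `b`) and `n` ANY
odd number, where `|b|`, `|c|` and `n` are at most `g ^ (E K)`; so the polynomial may vary with `n`. Let `[m₀, m₀ + g ^ K)` be an
arbitrary interval such that `f(m) + m ≤ n` for the integers `m` of this interval. The number of the `m = m₀ + t` with these `t` for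
which `m` and `l = n - f(m)` have at most `r` prime factors, all larger than `g ^ (K / r)`, is at least
`κ V |A 0| ⋯ |A (K - 1)|`, unless there is an obvious obstruction (no digit `d` in `A 0` such that `m₀ + d` and `n - f(m₀ + d)` are
prime to `g`); here `V` is the product of `1 - ν (p) / p` over the primes `p ≤ g ^ K`, where `ν (p)` is the number of the zeros of
`X (n - f)` modulo `p`, the expected order. The number of the `m = m₀ + t` for which `m` and `n - f(m)` are primes (representations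
`n = f(p₁) + p₂`) is at most `C V |A 0| ⋯ |A (K - 1)|`. The constants are independent of `b`, `c`, `n`, `m₀` and the sets `A i`.

Proof. The theorem on almost prime values of polynomials at integers with restricted digits, uniform in the polynomial, of the
starting library (`Pool.Agent.Y816.PD.uni_fun`).
-/

set_option autoImplicit false

namespace Pool.Agent.Results.MP_d9bc60_nt.RestrictedDigits

open Filter Finset Polynomial
open Pool.Agent.Q315.RD

/-- the value of `X ^ 2 + b X + c` -/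
def f (b c m : ℤ) : ℤ := m ^ 2 + b * m + c

/-- The polynomial `X ^ 2 + b X + c` is admissible. -/
def Admissible (b c : ℤ) : Prop := Odd (b + c) ∧ ¬ (3 : ℤ) ∣ b

/-- The product of `1 - ν / p` over the primes `p ≤ y`, `ν` the number of the zeros of `X (n - f)` modulo `p`. -/
noncomputable def V (b c n : ℤ) (y : ℕ) : ℝ := rootDensity (fun m => (m : ℤ) * (n - f b c m)) y

/-- the forms -/
def F (b c n : ℤ) (m₀ : ℕ) : Fin 2 → ℕ → ℤ := ![fun t => (m₀ : ℤ) + t, fun t => n - f b c (m₀ + t)]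

/-- the polynomial, up to the sign -/
noncomputable def Q (b c n : ℤ) (m₀ : ℕ) : ℤ[X] :=
  (X + C (m₀ : ℤ)) * ((X + C (m₀ : ℤ)) ^ 2 + C b * (X + C (m₀ : ℤ)) + C (c - n))

lemma Q_eval (b c n : ℤ) (m₀ : ℕ) (x : ℤ) : (Q b c n m₀).eval x = (x + m₀) * (f b c (x + m₀) - n) := by
  simp only [Q, f, eval_mul, eval_add, eval_pow, eval_X, eval_C]
  ring

lemma Q_deg (b c n : ℤ) (m₀ : ℕ) : (Q b c n m₀).natDegree ≤ 3 := by
  unfold Q
  compute_degree

lemma Q_monic (b c n : ℤ) (m₀ : ℕ) : (Q b c n m₀).Monic := by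
  unfold Q
  apply Monic.mul (monic_X_add_C _)
  monicity!

lemma F_prod (b c n : ℤ) (m₀ t : ℕ) : ∏ i, F b c n m₀ i t = (- Q b c n m₀).eval (t : ℤ) := by
  rw [eval_neg, Q_eval, Fin.prod_univ_two]
  simp only [F, Matrix.cons_val_zero, Matrix.cons_val_one, Matrix.cons_val_fin_one]
  rw [add_comm (t : ℤ) (m₀ : ℤ)]
  ring

lemma V_eq (b c n : ℤ) (m₀ y : ℕ) : rootDensity (fun t => ∏ i, F b c n m₀ i t) y = V b c n y := by
  have h := rootDensity_shift (- Q b c n 0) m₀ y
  unfold V
  have h1 : (fun m : ℕ => (- Q b c n 0).eval (m : ℤ)) = fun m : ℕ => (m : ℤ) * (n - f b c m) := by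
    funext m
    rw [eval_neg, Q_eval]
    push_cast
    rw [add_zero]
    ring
  have h2 : (fun t : ℕ => (- Q b c n 0).eval ((m₀ : ℤ) + t)) = fun t : ℕ => ∏ i, F b c n m₀ i t := by
    funext t
    rw [F_prod, eval_neg, Q_eval, eval_neg, Q_eval]
    push_cast
    rw [add_zero, add_comm (t : ℤ) (m₀ : ℤ)]
  rw [h1, h2] at h
  exact h

lemma adm {b c n : ℤ} (m₀ : ℕ) (hf : Admissible b c) (hn : Odd n) (p : ℕ) (hp : p.Prime) :
    ∃ t : ℕ, ¬ (p : ℤ) ∣ ∏ i, F b c n m₀ i t := by
  rcases Nat.lt_or_ge p 5 with h5 | h5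
  · have h2 := hp.two_le
    have h4 : p = 2 ∨ p = 3 := by
      by_contra hcon
      have : p = 4 := by omega
      subst this
      revert hp
      norm_num
    have hpz := Nat.prime_iff_prime_int.1 hp
    obtain ⟨x, hx1, hx2⟩ : ∃ x : ℕ, ¬ (p : ℤ) ∣ (x : ℤ) ∧ ¬ (p : ℤ) ∣ n - f b c x := by
      obtain ⟨w, hw⟩ := hf.1
      obtain ⟨v, hv⟩ := hn
      rcases h4 with rfl | rfl
      · refine ⟨1, by norm_num, ?_⟩
        unfold f
        push_cast
        omega
      · by_cases h : (3 : ℤ) ∣ n - f b c 1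
        · refine ⟨2, by norm_num, fun h' => hf.2 ?_⟩
          unfold f at h h'
          push_cast at h h'
          omega
        · exact ⟨1, by norm_num, by exact_mod_cast h⟩
    refine ⟨x + (p - 1) * m₀, fun h => ?_⟩
    have e : ((x + (p - 1) * m₀ : ℕ) : ℤ) + m₀ = x + p * m₀ := by
      push_cast [Nat.cast_sub hp.one_lt.le]
      ring
    rw [F_prod, eval_neg, Q_eval, e, dvd_neg] at h
    rcases hpz.dvd_or_dvd h with h | h
    · exact hx1 ((dvd_add_left (dvd_mul_right _ _)).1 h)
    · apply hx2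
      have h6 : (p : ℤ) ∣ f b c (x + p * m₀) - f b c x := by
        unfold f
        exact ⟨m₀ * (2 * x + p * m₀ + b), by ring⟩
      have h7 := dvd_sub h h6
      rw [show f b c (x + p * m₀) - n - (f b c (x + p * m₀) - f b c x) = - (n - f b c x) by ring, dvd_neg] at h7
      exact h7
  · obtain ⟨t, ht⟩ := Pool.Agent.Y816.PD.adm_deg hp (Q b c n m₀)
      (by rw [(Q_monic _ _ _ _).leadingCoeff]
          intro h
          have := Int.eq_one_of_dvd_one (by omega) h
          omega)
      (lt_of_le_of_lt (Q_deg _ _ _ _) (by omega))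
    exact ⟨t, by rw [F_prod, eval_neg, dvd_neg]; exact ht⟩

/-- **All odd numbers are sums of `f(m)` and `l` with almost primes `m` with restricted digits and `l`.** -/
theorem result (E : ℕ) :
    ∃ c₀ : ℝ, 0 < c₀ ∧ ∃ r₀ : ℕ, 2 ≤ r₀ ∧ ∀ r : ℕ, r₀ ≤ r → ∀ g : ℕ, 2 ≤ g → ∃ κ C : ℝ, 0 < κ ∧ 0 < C ∧
      ∀ᶠ K : ℕ in atTop, ∀ (b c n : ℤ) (m₀ : ℕ), Admissible b c → Odd n →
        |b| ≤ g ^ (E * K) → |c| ≤ g ^ (E * K) → n ≤ g ^ (E * K) →
        (∀ m : ℕ, m₀ ≤ m → m < m₀ + g ^ K → f b c m + m ≤ n) → ∀ A : ℕ → Finset ℕ, Rich c₀ g K A →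
        ((∃ d ∈ A 0, (m₀ + d).Coprime g ∧ (n - f b c (m₀ + d)).natAbs.Coprime g) →
          κ * V b c n (g ^ K) * choices K A ≤
            count g K A fun t => AlmostPrime (g ^ K) r (m₀ + t) ∧ AlmostPrime (g ^ K) r (n - f b c (m₀ + t)).natAbs) ∧
        (count g K A (fun t => (m₀ + t).Prime ∧ (n - f b c (m₀ + t)).natAbs.Prime) : ℝ) ≤
          C * V b c n (g ^ K) * choices K A := by
  obtain ⟨c₀, hc₀, r₀, hr₀, h⟩ := formsZ 3 (4 * (E + 2)) (by norm_num)
  refine ⟨c₀, hc₀, r₀, hr₀, fun r hr g hg => ?_⟩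
  obtain ⟨κ, C, hκ, hC, h1⟩ := h r hr g hg
  refine ⟨κ, C, hκ, hC, ?_⟩
  filter_upwards [h1, eventually_ge_atTop 3] with K hK hK1
  intro b c n m₀ hf hn hb hc hnE hm A hA
  have hgK : 8 ≤ g ^ K := by
    calc 8 = 2 ^ 3 := by norm_num
      _ ≤ g ^ 3 := Nat.pow_le_pow_left hg 3
      _ ≤ g ^ K := Nat.pow_le_pow_right (by omega) hK1
  have f0 : ∀ t : ℕ, (F b c n m₀ 0 t).natAbs = m₀ + t := by
    intro t
    have : F b c n m₀ 0 t = (m₀ : ℤ) + t := rfl
    rw [this]
    omega
  have f1 : ∀ t : ℕ, (F b c n m₀ 1 t).natAbs = (n - f b c (m₀ + t)).natAbs := fun t => rfl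
  have hpos : ∀ t < g ^ K, ((m₀ : ℤ) + t) ≤ n - f b c (m₀ + t) := by
    intro t ht
    have := hm (m₀ + t) (by omega) (by omega)
    push_cast at this
    linarith
  obtain ⟨G, hG⟩ : ∃ G : ℤ, G = (g : ℤ) ^ (E * K) := ⟨_, rfl⟩
  have hG1 : 1 ≤ G := by
    rw [hG]
    exact_mod_cast Nat.one_le_pow _ _ (by omega)
  rw [← hG] at hb hc hnE
  have hb' := abs_le.1 hb
  have hc' := abs_le.1 hc
  -- the size of `m`
  have hsize : ∀ t < g ^ K, ((m₀ : ℤ) + t) ≤ 3 * G + 3 := by
    intro t ht
    by_contra hcon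
    push Not at hcon
    have h2 := hpos t ht
    unfold f at h2
    nlinarith
  obtain ⟨hlow, hup⟩ := hK 2 (F b c n m₀)
    ⟨- Q b c n m₀, by rw [natDegree_neg]; exact Q_deg _ _ _ _, fun t => (F_prod b c n m₀ t).symm⟩
    (fun p hp => adm m₀ hf hn p hp)
    (fun t ht i => by
      fin_cases i
      · simp only [Fin.zero_eta]
        rw [f0]
        omega
      · simp only [Fin.mk_one]
        rw [f1]
        have := hpos t ht
        omega)
    (fun t ht => by
      rw [Fin.prod_univ_two, f0, f1]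
      have h2 := hsize t ht
      have h3 := hpos t ht
      have h4 : (((m₀ + t) * (n - f b c (m₀ + t)).natAbs : ℕ) : ℤ) ≤ ((g ^ (4 * (E + 2) * K) : ℕ) : ℤ) := by
        push_cast
        have h5 : |n - f b c (m₀ + t)| = n - f b c (m₀ + t) := abs_of_nonneg (by linarith [show (0 : ℤ) ≤ (m₀ : ℤ) + t by positivity])
        rw [h5]
        have h6 : n - f b c (m₀ + t) ≤ 8 * G ^ 2 := by
          unfold f
          nlinarith [show (0 : ℤ) ≤ (m₀ : ℤ) + t by positivity, sq_nonneg ((m₀ : ℤ) + t)]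
        have h7 : (m₀ : ℤ) + t ≤ 6 * G := by linarith
        have hgZ : (8 : ℤ) ≤ (g : ℤ) ^ K := by exact_mod_cast hgK
        calc ((m₀ : ℤ) + t) * (n - f b c (m₀ + t)) ≤ (6 * G) * (8 * G ^ 2) :=
              mul_le_mul h7 h6 (by linarith [show (0 : ℤ) ≤ (m₀ : ℤ) + t by positivity]) (by positivity)
          _ = 48 * G ^ 3 := by ring
          _ ≤ (8 * 8) * G ^ 4 := by nlinarith [pow_pos (show 0 < G by linarith) 3]
          _ ≤ ((g : ℤ) ^ K * (g : ℤ) ^ K) * G ^ 4 := by gcongr
          _ = (g : ℤ) ^ ((4 * E + 2) * K) := by rw [hG, ← pow_mul, ← pow_add, ← pow_add]; congr 1; ring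
          _ ≤ (g : ℤ) ^ (4 * (E + 2) * K) := pow_le_pow_right₀ (by exact_mod_cast (show 1 ≤ g by omega)) (by nlinarith)
      exact_mod_cast h4) A hA
  rw [V_eq] at hlow hup
  simp only [Fin.forall_fin_two, f0, f1] at hlow hup
  exact ⟨hlow, hup⟩

end Pool.Agent.Results.MP_d9bc60_nt.RestrictedDigits
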