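import Pool.Agent.Q55.Rom
import Pool.Agent.TH685.TI.FAvg

/-!
# Odd numbers `f(p₁) + p₂` with a tiny prime `p₁`, both primes from arbitrary sets, uniformly in the polynomial

Let `f = X ^ 2 + b X + c` with `b + c` odd. Let `P` be ANY set of at least `α x / log x` primes up to `x`, and let `S` be
ANY set of at least `β log x` primes up to `δ log x log log x`. Then at least `c₀ x` of the odd numbers up to `2 x` are
of the form `f(p) + q` with `p` in `S` and `q` in `P`; `c₀ > 0` depends only on `α`, `β`, `δ`, which are arbitrary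
positive numbers, and the polynomial may vary with `x` as long as `|b| + |c| ≤ (β / 8) log x`. This is a consequence of
an inequality for all sets of primes up to `x` and all sets of primes up to `x ^ (1 / 40)`.
-/

set_option autoImplicit false

open Finset Filter

namespace Pool.Agent.Results.MP_d9bc60_nt.TinyPrimeArguments

open Classical in
/-- the odd `n` in `[1, 2 x]` such that `n = p ^ 2 + b p + c + q` for some `p` in `S` and some `q` in `P` -/
noncomputable def sums (b c : ℤ) (S P : Finset ℕ) (x : ℕ) : Finset ℕ :=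
  (Icc 1 (2 * x)).filter (fun n => Odd n ∧ ∃ p ∈ S, ∃ q ∈ P, (p : ℤ) ^ 2 + b * p + c + q = n)

lemma ev_pow : ∀ᶠ x : ℕ in atTop, ∀ M : ℕ, (M : ℝ) ≤ (x : ℝ) ^ (1 / 40 : ℝ) →
    4 * (M : ℝ) ^ 2 ≤ (x : ℝ) ^ (1 / 16 : ℝ) := by
  have h1 : Tendsto (fun x : ℕ => (x : ℝ) ^ (1 / 80 : ℝ)) atTop atTop :=
    (tendsto_rpow_atTop (by norm_num)).comp tendsto_natCast_atTop_atTop
  filter_upwards [h1.eventually_ge_atTop 4, eventually_ge_atTop 1] with x hx hx1 M hM
  have hx0 : (0 : ℝ) < x := by exact_mod_cast (by omega : 0 < x)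
  have h2 : (M : ℝ) ^ 2 ≤ ((x : ℝ) ^ (1 / 40 : ℝ)) ^ 2 := pow_le_pow_left₀ (Nat.cast_nonneg _) hM 2
  have h3 : ((x : ℝ) ^ (1 / 40 : ℝ)) ^ 2 = (x : ℝ) ^ (1 / 20 : ℝ) := by
    rw [← Real.rpow_natCast, ← Real.rpow_mul hx0.le]
    norm_num
  have h4 : (x : ℝ) ^ (1 / 16 : ℝ) = (x : ℝ) ^ (1 / 80 : ℝ) * (x : ℝ) ^ (1 / 20 : ℝ) := by
    rw [← Real.rpow_add hx0]
    norm_num
  rw [h3] at h2
  rw [h4]
  exact mul_le_mul hx h2 (sq_nonneg _) (by positivity)

lemma ev_log : ∀ᶠ x : ℕ in atTop, Real.log x ^ 2 ≤ (x : ℝ) ^ (1 / 40 : ℝ) := by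
  have h1 := (isLittleO_log_rpow_atTop (r := 1 / 80) (by norm_num)).bound
    (show (0 : ℝ) < 1 by norm_num)
  have h2 := (tendsto_natCast_atTop_atTop (R := ℝ)).eventually h1
  filter_upwards [h2, eventually_ge_atTop 1] with x hx hx1
  have hx0 : (0 : ℝ) < x := by exact_mod_cast (by omega : 0 < x)
  have hl := Real.log_nonneg (by exact_mod_cast hx1 : (1 : ℝ) ≤ x)
  rw [Real.norm_of_nonneg hl, Real.norm_of_nonneg (by positivity), one_mul] at hx
  calc Real.log x ^ 2 ≤ ((x : ℝ) ^ (1 / 80 : ℝ)) ^ 2 := pow_le_pow_left₀ hl hx 2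
    _ = (x : ℝ) ^ (1 / 40 : ℝ) := by
      rw [← Real.rpow_natCast, ← Real.rpow_mul hx0.le]
      norm_num

/-- the conditions on `L = log x` -/
lemma ev_L (δ K : ℝ) (hδ : 0 < δ) : ∀ᶠ L : ℝ in atTop, K ≤ L ∧ 1 ≤ Real.log L ∧
    L ≤ δ * (L * Real.log L) - 1 ∧ δ * (L * Real.log L) ≤ L ^ 2 := by
  have h1 := Real.isLittleO_log_id_atTop.bound (show (0 : ℝ) < 1 / δ by positivity)
  have h3 := Real.tendsto_log_atTop.eventually_ge_atTop (max 1 (2 / δ))
  filter_upwards [h1, eventually_ge_atTop K, eventually_ge_atTop 1, h3] with L h1 h2 h3 h4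
  have hl : 1 ≤ Real.log L := (le_max_left _ _).trans h4
  have hl2 : 2 / δ ≤ Real.log L := (le_max_right _ _).trans h4
  rw [div_le_iff₀ hδ] at hl2
  rw [Real.norm_of_nonneg (by linarith), id, Real.norm_of_nonneg (by linarith)] at h1
  refine ⟨h2, hl, ?_, ?_⟩
  · nlinarith
  · calc δ * (L * Real.log L) ≤ δ * (L * (1 / δ * L)) := by gcongr
      _ = L ^ 2 := by field_simp

/-- an elementary bound for a value of the polynomial -/
lemma u_le {b c : ℤ} {p M : ℕ} (hp : b.natAbs + c.natAbs + 3 ≤ p) (hpM : p ≤ M) :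
    (p : ℤ) ^ 2 + b * p + c + 1 ≤ 2 * (M : ℤ) ^ 2 := by
  have h1 : b ≤ b.natAbs := by omega
  have h2 : c ≤ c.natAbs := by omega
  have h3 : (b.natAbs : ℤ) + c.natAbs + 3 ≤ p := by exact_mod_cast hp
  have h4 : (p : ℤ) ≤ M := by exact_mod_cast hpM
  have h5 : (0 : ℤ) ≤ b.natAbs := by positivity
  have h6 : (0 : ℤ) ≤ c.natAbs := by positivity
  have h7 : b * p ≤ b.natAbs * p := mul_le_mul_of_nonneg_right h1 (by positivity)
  have h8 : (p : ℤ) * p ≤ M * M := mul_le_mul h4 h4 (by positivity) (by positivity)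
  nlinarith

/-- **Theorem.** (1) There is `C > 0` such that for all large `x`, all `M` with `2 ≤ M ≤ x ^ (1 / 40)`, all integers
`b`, `c` with `b + c` odd, ALL sets `S` of primes `p` with `|b| + |c| + 3 ≤ p ≤ M` and ALL sets `P` of primes in `[3, x]`
the number `N` of the odd numbers up to `2 x` which are equal to `p ^ 2 + b p + c + q` with `p ∈ S`, `q ∈ P` satisfies
`(#S #P) ^ 2 ≤ N (#S #P + C (M / log M) ^ 2 x / (log x) ^ 2)`.
(2) For all `α, β, δ > 0` there is `c₀ > 0` such that for all large `x`, all `b`, `c` with `b + c` odd and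
`|b| + |c| ≤ (β / 8) log x`, ALL sets `S` of at least `β log x` primes up to `δ log x log log x` and ALL sets `P` of at
least `α x / log x` primes up to `x`, at least `c₀ x` of the odd numbers up to `2 x` are of this form. -/
theorem result :
    (∃ C : ℝ, 0 < C ∧ ∀ᶠ x : ℕ in atTop, ∀ M : ℕ, 2 ≤ M → (M : ℝ) ≤ (x : ℝ) ^ (1 / 40 : ℝ) →
      ∀ b c : ℤ, Odd (b + c) → ∀ S : Finset ℕ, (∀ p ∈ S, p.Prime ∧ b.natAbs + c.natAbs + 3 ≤ p ∧ p ≤ M) →
      ∀ P : Finset ℕ, (∀ q ∈ P, q.Prime ∧ 3 ≤ q ∧ q ≤ x) →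
        ((S.card : ℝ) * P.card) ^ 2 ≤
          (sums b c S P x).card * ((S.card : ℝ) * P.card + C * ((M / Real.log M) ^ 2 * (x / Real.log x ^ 2)))) ∧
    ∀ α β δ : ℝ, 0 < α → 0 < β → 0 < δ → ∃ c₀ : ℝ, 0 < c₀ ∧ ∀ᶠ x : ℕ in atTop,
      ∀ b c : ℤ, Odd (b + c) → |(b : ℝ)| + |(c : ℝ)| ≤ β / 8 * Real.log x →
      ∀ S : Finset ℕ, (∀ p ∈ S, p.Prime ∧ (p : ℝ) ≤ δ * (Real.log x * Real.log (Real.log x))) →
        β * Real.log x ≤ S.card →
      ∀ P : Finset ℕ, (∀ q ∈ P, q.Prime ∧ q ≤ x) → α * (x / Real.log x) ≤ P.card →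
        c₀ * x ≤ (sums b c S P x).card := by
  classical
  obtain ⟨C1, hC1, havg⟩ := Pool.Agent.TH685.FAvg.avg_f
  obtain ⟨C2, hC2, X₀, hsm⟩ := Pool.Agent.Q55.Rom.second_moment
  obtain ⟨C, hC⟩ : ∃ C : ℝ, C = C2 * C1 := ⟨_, rfl⟩
  have hC0 : 0 < C := by rw [hC]; positivity
  have key : ∀ᶠ x : ℕ in atTop, ∀ M : ℕ, 2 ≤ M → (M : ℝ) ≤ (x : ℝ) ^ (1 / 40 : ℝ) →
      ∀ b c : ℤ, Odd (b + c) → ∀ S : Finset ℕ, (∀ p ∈ S, p.Prime ∧ b.natAbs + c.natAbs + 3 ≤ p ∧ p ≤ M) →
      ∀ P : Finset ℕ, (∀ q ∈ P, q.Prime ∧ 3 ≤ q ∧ q ≤ x) →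
        ((S.card : ℝ) * P.card) ^ 2 ≤
          (sums b c S P x).card * ((S.card : ℝ) * P.card + C * ((M / Real.log M) ^ 2 * (x / Real.log x ^ 2))) := by
    filter_upwards [ev_pow, eventually_ge_atTop X₀, eventually_ge_atTop 2] with
      x hx hxX hx2 M hM2 hM b c hbc S hS P hP
    rcases S.eq_empty_or_nonempty with rfl | ⟨p₀, hp₀⟩
    · have h0 : (0 : ℝ) ≤ (sums b c ∅ P x).card *
          (((∅ : Finset ℕ).card : ℝ) * P.card + C * ((M / Real.log M) ^ 2 * (x / Real.log x ^ 2))) := by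
        positivity
      simpa using h0
    have hbM : b.natAbs ≤ M := by
      have h1 := hS p₀ hp₀
      omega
    obtain ⟨U, hU⟩ : ∃ U : Finset ℕ, U = S.image (Pool.Agent.TH685.FAvg.u b c) := ⟨_, rfl⟩
    have hUcard : U.card = S.card := by
      rw [hU]
      apply card_image_of_injOn
      intro p hp q hq h
      have h1 := (hS p hp).2.1
      have h2 := (hS q hq).2.1
      have h3 := Pool.Agent.TH685.FAvg.u_dist b c p q h1 h2
      have h' : Pool.Agent.TH685.FAvg.u b c p = Pool.Agent.TH685.FAvg.u b c q := h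
      rw [h', Nat.dist_self] at h3
      rcases Nat.mul_eq_zero.1 h3.symm with h4 | h4
      · exact Nat.eq_of_dist_eq_zero h4
      · omega
    have hUsub : U ⊆ Icc 1 (2 * M ^ 2) := by
      intro a ha
      rw [hU, mem_image] at ha
      obtain ⟨p, hp, rfl⟩ := ha
      obtain ⟨h1, h2, h3⟩ := hS p hp
      obtain ⟨h4, h5⟩ := Pool.Agent.TH685.FAvg.u_cast b c p h2
      rw [mem_Icc]
      refine ⟨by omega, ?_⟩
      have h6 := u_le h2 h3
      rw [← h4] at h6
      exact_mod_cast h6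
    have hUodd : ∀ a ∈ U, 3 ≤ a ∧ a % 2 = 1 := by
      intro a ha
      rw [hU, mem_image] at ha
      obtain ⟨p, hp, rfl⟩ := ha
      obtain ⟨h1, h2, h3⟩ := hS p hp
      obtain ⟨h4, h5⟩ := Pool.Agent.TH685.FAvg.u_cast b c p h2
      refine ⟨h5, ?_⟩
      have h6 : Odd p := h1.odd_of_ne_two (by omega)
      obtain ⟨k, hk⟩ := h6
      obtain ⟨l, hl⟩ := hbc
      have h7 : ((Pool.Agent.TH685.FAvg.u b c p : ℕ) : ℤ) = 2 * (2 * (k : ℤ) ^ 2 + 2 * k + b * k + l + 1) + 1 := by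
        rw [h4, hk]
        push_cast
        linear_combination hl
      omega
    have hPQ : P ⊆ Pool.Agent.H197R2.PG.QQ x := by
      intro q hq
      obtain ⟨h1, h2, h3⟩ := hP q hq
      unfold Pool.Agent.H197R2.PG.QQ
      rw [mem_filter, mem_Ioc]
      exact ⟨⟨by omega, h3⟩, h1⟩
    have h1 := hsm x (2 * M ^ 2) U P hxX (by
      push_cast
      have := hx M hM
      linarith) hUsub hUodd hPQ
    have h2 := havg b c M S hM2 hbM (fun p hp => ⟨(hS p hp).1, (hS p hp).2.2, (hS p hp).2.1⟩)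
    rw [← hU] at h2
    rw [hUcard] at h1
    have h3 : ((Pool.Agent.Q55.Rom.RP U P x).card : ℝ) ≤ (sums b c S P x).card := by
      have h4 : (Pool.Agent.Q55.Rom.RP U P x).card ≤ (sums b c S P x).card := by
        apply card_le_card_of_injOn (fun n => 2 * n - 1)
        · intro n hn
          rw [mem_coe] at hn
          unfold Pool.Agent.Q55.Rom.RP at hn
          rw [mem_filter, mem_Icc] at hn
          obtain ⟨⟨h5, h6⟩, a, ha, q, hq, haq⟩ := hn
          rw [hU, mem_image] at ha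
          obtain ⟨p, hp, rfl⟩ := ha
          obtain ⟨h7, h8⟩ := Pool.Agent.TH685.FAvg.u_cast b c p (hS p hp).2.1
          rw [mem_coe]
          beta_reduce
          unfold sums
          rw [mem_filter, mem_Icc]
          refine ⟨⟨by omega, by omega⟩, ⟨n - 1, by omega⟩, p, hp, q, hq, ?_⟩
          have h9 : (((2 * n - 1 : ℕ)) : ℤ) = 2 * (n : ℤ) - 1 := by omega
          have h10 : ((Pool.Agent.TH685.FAvg.u b c p : ℕ) : ℤ) + q = 2 * n := by exact_mod_cast haq
          rw [h7] at h10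
          rw [h9]
          linarith
        · intro n hn m hm h
          rw [mem_coe] at hn hm
          unfold Pool.Agent.Q55.Rom.RP at hn hm
          rw [mem_filter, mem_Icc] at hn hm
          have h' : 2 * n - 1 = 2 * m - 1 := h
          omega
      exact_mod_cast h4
    have hxl : 0 < Real.log x := Real.log_pos (by exact_mod_cast (by omega : 1 < x))
    calc ((S.card : ℝ) * P.card) ^ 2 ≤ _ := h1
      _ ≤ (sums b c S P x).card * ((S.card : ℝ) * P.card +
          C2 * (∑ z ∈ U.offDiag, Pool.Agent.H197R2.PG.gg (2 * Nat.dist z.1 z.2)) * x / Real.log x ^ 2) := by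
        apply mul_le_mul_of_nonneg_right h3
        have h5 : 0 ≤ ∑ z ∈ U.offDiag, Pool.Agent.H197R2.PG.gg (2 * Nat.dist z.1 z.2) :=
          Finset.sum_nonneg fun z _ => by
            have := Pool.Agent.H197R2.PG.one_le_gg (2 * Nat.dist z.1 z.2)
            linarith
        positivity
      _ ≤ (sums b c S P x).card * ((S.card : ℝ) * P.card +
          C2 * (C1 * (M / Real.log M) ^ 2) * x / Real.log x ^ 2) := by gcongr
      _ = _ := by rw [hC]; ring
  refine ⟨⟨C, hC0, key⟩, fun α β δ hα hβ hδ => ?_⟩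
  obtain ⟨a, ha⟩ : ∃ a : ℝ, a = α * β / 4 := ⟨_, rfl⟩
  have ha0 : 0 < a := by rw [ha]; positivity
  have hlogt : Tendsto (fun x : ℕ => Real.log (x : ℝ)) atTop atTop :=
    Real.tendsto_log_atTop.comp tendsto_natCast_atTop_atTop
  refine ⟨a / (1 + C * δ ^ 2 / a), by positivity, ?_⟩
  filter_upwards [key, ev_log, hlogt.eventually (ev_L δ (max 1 (max (24 / β) (2 / α))) hδ),
    eventually_ge_atTop 3] with x hkey hlog hL hx3 b c hbc hbcs S hS hSc P hP hPc
  obtain ⟨L, hLd⟩ : ∃ L : ℝ, L = Real.log x := ⟨_, rfl⟩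
  rw [← hLd] at hlog hL hbcs hS hSc hPc
  obtain ⟨hK, hll, hLM, hM2⟩ := hL
  have hL1 : 1 ≤ L := (le_max_left _ _).trans hK
  have hL2 : 24 / β ≤ L := ((le_max_left _ _).trans (le_max_right _ _)).trans hK
  have hL3 : 2 / α ≤ L := ((le_max_right _ _).trans (le_max_right _ _)).trans hK
  rw [div_le_iff₀ hβ] at hL2
  rw [div_le_iff₀ hα] at hL3
  have hx0 : (0 : ℝ) < x := by exact_mod_cast (by omega : 0 < x)
  obtain ⟨M, hM⟩ : ∃ M : ℕ, M = ⌊δ * (L * Real.log L)⌋₊ := ⟨_, rfl⟩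
  have hMle : (M : ℝ) ≤ δ * (L * Real.log L) := by rw [hM]; exact Nat.floor_le (by positivity)
  have hMge : L ≤ M := by
    have := Nat.lt_floor_add_one (δ * (L * Real.log L))
    rw [← hM] at this
    linarith
  have hLe : Real.exp 1 ≤ L := by
    rw [← Real.le_log_iff_exp_le (by linarith)]
    exact hll
  have hL2' : 2 ≤ L := by
    have := Real.exp_one_gt_d9
    linarith
  have hM2' : 2 ≤ M := by exact_mod_cast hL2'.trans hMge
  obtain ⟨w, hw⟩ : ∃ w : ℕ, w = b.natAbs + c.natAbs + 3 := ⟨_, rfl⟩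
  have hwL : (w : ℝ) ≤ β / 4 * L := by
    rw [hw]
    push_cast
    rw [Nat.cast_natAbs, Nat.cast_natAbs]
    push_cast
    linarith
  obtain ⟨S', hS'⟩ : ∃ S' : Finset ℕ, S' = S.filter (fun p => w ≤ p) := ⟨_, rfl⟩
  obtain ⟨P', hP'⟩ : ∃ P' : Finset ℕ, P' = P.erase 2 := ⟨_, rfl⟩
  have h1 := hkey M hM2' (hMle.trans (hM2.trans hlog)) b c hbc S' (fun p hp => by
    rw [hS', mem_filter, hw] at hp
    refine ⟨(hS p hp.1).1, hp.2, ?_⟩
    rw [hM]
    exact Nat.le_floor (hS p hp.1).2) P' (fun q hq => by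
    rw [hP', mem_erase] at hq
    obtain ⟨h2, h3⟩ := hP q hq.2
    have := h2.two_le
    exact ⟨h2, by omega, h3⟩)
  have hsub : ((sums b c S' P' x).card : ℝ) ≤ (sums b c S P x).card := by
    apply Nat.cast_le.2
    apply card_le_card
    intro n hn
    unfold sums at hn ⊢
    rw [mem_filter] at hn ⊢
    obtain ⟨h2, h3, p, hp, q, hq, h4⟩ := hn
    refine ⟨h2, h3, p, ?_, q, ?_, h4⟩
    · rw [hS', mem_filter] at hp
      exact hp.1
    · rw [hP', mem_erase] at hq
      exact hq.2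
  have hcS : β * L / 2 ≤ (S'.card : ℝ) := by
    have h2 : S.card ≤ S'.card + w := by
      have h3 := card_filter_add_card_filter_not (s := S) (fun p => w ≤ p)
      have h4 : (S.filter (fun p => ¬ w ≤ p)).card ≤ w := by
        calc (S.filter (fun p => ¬ w ≤ p)).card ≤ (range w).card := by
              apply card_le_card
              intro p hp
              rw [mem_filter] at hp
              rw [mem_range]
              omega
          _ = w := card_range w
      rw [hS']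
      omega
    have h3 : (S.card : ℝ) ≤ S'.card + w := by exact_mod_cast h2
    nlinarith
  have hcP : α * (x / L) / 2 ≤ (P'.card : ℝ) := by
    have h2 := Finset.pred_card_le_card_erase (s := P) (a := 2)
    rw [← hP'] at h2
    have h3 : (P.card : ℝ) ≤ P'.card + 1 := by
      have : P.card ≤ P'.card + 1 := by omega
      exact_mod_cast this
    have h4 : 1 ≤ α * (x / L) / 2 := by
      rw [le_div_iff₀ (by norm_num), ← mul_div_assoc, le_div_iff₀ (by linarith)]
      have h5 : L ^ 2 ≤ x := by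
        refine hlog.trans ?_
        have hx1 : (1 : ℝ) ≤ x := by exact_mod_cast (by omega : 1 ≤ x)
        calc (x : ℝ) ^ (1 / 40 : ℝ) ≤ (x : ℝ) ^ (1 : ℝ) := Real.rpow_le_rpow_of_exponent_le hx1 (by norm_num)
          _ = x := Real.rpow_one _
      nlinarith
    linarith
  obtain ⟨T, hT⟩ : ∃ T : ℝ, T = (S'.card : ℝ) * P'.card := ⟨_, rfl⟩
  rw [← hT, ← hLd] at h1
  have hTa : a * x ≤ T := by
    rw [hT, ha]
    calc α * β / 4 * x = (β * L / 2) * (α * (x / L) / 2) := by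
          field_simp
          norm_num
      _ ≤ _ := mul_le_mul hcS hcP (by positivity) (Nat.cast_nonneg _)
  have hT0 : 0 < T := lt_of_lt_of_le (by positivity) hTa
  have hMl : (M : ℝ) / Real.log M ≤ δ * L := by
    have h2 : Real.log L ≤ Real.log M := Real.log_le_log (by linarith) hMge
    rw [div_le_iff₀ (by linarith)]
    calc (M : ℝ) ≤ δ * (L * Real.log L) := hMle
      _ = δ * L * Real.log L := by ring
      _ ≤ δ * L * Real.log M := by gcongr
  have hMl0 : 0 ≤ (M : ℝ) / Real.log M := by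
    apply div_nonneg (Nat.cast_nonneg _)
    exact Real.log_nonneg (by linarith)
  have h2 : C * ((M / Real.log M) ^ 2 * (x / L ^ 2)) ≤ T * (C * δ ^ 2 / a) := by
    have h3 : ((M : ℝ) / Real.log M) ^ 2 ≤ (δ * L) ^ 2 := pow_le_pow_left₀ hMl0 hMl 2
    calc C * ((M / Real.log M) ^ 2 * (x / L ^ 2)) ≤ C * ((δ * L) ^ 2 * (x / L ^ 2)) := by gcongr
      _ = C * δ ^ 2 * x := by field_simp
      _ = (a * x) * (C * δ ^ 2 / a) := by field_simp
      _ ≤ T * (C * δ ^ 2 / a) := mul_le_mul_of_nonneg_right hTa (by positivity)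
  have h3 : T * T ≤ T * ((sums b c S' P' x).card * (1 + C * δ ^ 2 / a)) := by
    calc T * T = T ^ 2 := by ring
      _ ≤ _ := h1
      _ ≤ (sums b c S' P' x).card * (T + T * (C * δ ^ 2 / a)) := by gcongr
      _ = _ := by ring
  have h4 := le_of_mul_le_mul_left h3 hT0
  have h5 : 0 < 1 + C * δ ^ 2 / a := by positivity
  rw [div_mul_eq_mul_div, div_le_iff₀ h5]
  calc a * x ≤ T := hTa
    _ ≤ _ := h4
    _ ≤ (sums b c S P x).card * (1 + C * δ ^ 2 / a) := mul_le_mul_of_nonneg_right hsub h5.le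

end Pool.Agent.Results.MP_d9bc60_nt.TinyPrimeArguments
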