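import Pool.Agent.Q25.UReg7
import Pool.Agent.TH464.PW.Quad

/-!
# The laws of the almost prime pairs `x`, `n - f(x)`, uniformly in `n` and in the quadratic polynomial `f`

For ALL admissible `f = x ^ 2 + b x + c` and ALL odd `n` which are not values of `f`, with `|b|, |n - c| ≤ X ^ E`, call `x` good
if neither `x` nor `n - f(x)` has a prime factor `≤ X ^ (1/r)`. In ALL intervals of length at least `X ^ θ` the numbers of
the good `x` in windows follow the Poisson law and the gaps between the good `x` are exponentially distributed, and almost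
all elements of an ARBITRARY set of good `x` (for instance of the primes `x` for which `n - f(x)` is prime) are regular
points of this set. All this is uniform in `f`, `n` and in the intervals.
-/

set_option autoImplicit false

namespace Pool.Agent.Results.MP_d9bc60_nt.UniformLaws

open Finset Polynomial
open Pool.Agent.Q25.UReg (GoodP VP SmallDensity countP pois PoissonLawP GapLawP NoTr N RightOrder ConstantDensity
  badScales Irregular Sys)
open Pool.Agent.TH464.PW (quad quad_irr quad_deg quad_eval)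

/-- the polynomials `X` and `n - f(X) = n - (X ^ 2 + b X + c)` -/
noncomputable def g (b c n : ℤ) : Fin 2 → ℤ[X] := ![X, C n - (X ^ 2 + C b * X + C c)]

/-- `f = x ^ 2 + b x + c` is admissible, `n` is odd and not a value of `f`, and the sizes are at most `H` -/
structure Par (H : ℝ) (b c n : ℤ) : Prop where
  par : Odd (b + c)
  three : ¬ (3 : ℤ) ∣ b
  odd : Odd n
  val : ∀ m : ℤ, n ≠ m ^ 2 + b * m + c
  hb : |(b : ℝ)| ≤ H
  hn : |((n - c : ℤ) : ℝ)| ≤ H

lemma g1 (b c n : ℤ) : g b c n 1 = quad (-1) (-b) (n - c) := by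
  change (C n - (X ^ 2 + C b * X + C c) : ℤ[X]) = _
  unfold quad
  simp only [map_neg, map_one, map_sub]
  ring

lemma ev1 (b c n x : ℤ) : (g b c n 1).eval x = n - (x ^ 2 + b * x + c) := by
  rw [g1, quad_eval]
  ring

lemma ev0 (b c n x : ℤ) : (g b c n 0).eval x = x := by
  change (X : ℤ[X]).eval x = x
  simp

lemma degs (b c n : ℤ) : (g b c n 0).natDegree = 1 ∧ (g b c n 1).natDegree = 2 := by
  refine ⟨?_, ?_⟩
  · change (X : ℤ[X]).natDegree = 1
    exact natDegree_X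
  · rw [g1]
    exact quad_deg _ _ _ (by norm_num)

lemma adm {H : ℝ} {b c n : ℤ} (h : Par H b c n) (p : ℕ) (hp : p.Prime) :
    ∃ x : ℤ, ∀ i, ¬ (p : ℤ) ∣ (g b c n i).eval x := by
  have key : ∀ x : ℤ, ¬ (p : ℤ) ∣ x → ¬ (p : ℤ) ∣ n - (x ^ 2 + b * x + c) → ∀ i, ¬ (p : ℤ) ∣ (g b c n i).eval x := by
    intro x h1 h2 i
    fin_cases i
    · change ¬ (p : ℤ) ∣ (g b c n 0).eval x
      rw [ev0]; exact h1
    · change ¬ (p : ℤ) ∣ (g b c n 1).eval x
      rw [ev1]; exact h2
  have hp' : Prime (p : ℤ) := Nat.prime_iff_prime_int.1 hp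
  obtain ⟨w, hw⟩ := h.par
  obtain ⟨v, hv⟩ := h.odd
  have h3 := h.three
  rcases Nat.lt_or_ge 3 p with h5 | h5
  · by_contra hcon
    push Not at hcon
    have hbad : ∀ x : ℤ, 1 ≤ x → x ≤ 3 → (p : ℤ) ∣ n - (x ^ 2 + b * x + c) := by
      intro x hx1 hx4
      by_contra hc
      obtain ⟨i, hi⟩ := hcon x
      refine key x (fun hd => ?_) hc i hi
      have := Int.le_of_dvd (by omega) hd
      omega
    have e1 := hbad 1 (by norm_num) (by norm_num)
    have e2 := hbad 2 (by norm_num) (by norm_num)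
    have e3 := hbad 3 (by norm_num) (by norm_num)
    have e4 : (p : ℤ) ∣ 2 := by
      have e5 := dvd_sub (dvd_sub e2 e1) (dvd_sub e3 e2)
      have e6 : (n - ((2 : ℤ) ^ 2 + b * 2 + c) - (n - (1 ^ 2 + b * 1 + c))) -
          (n - (3 ^ 2 + b * 3 + c) - (n - (2 ^ 2 + b * 2 + c))) = 2 := by ring
      rwa [e6] at e5
    have := Int.le_of_dvd (by norm_num) e4
    omega
  · have hp23 : p = 2 ∨ p = 3 := by
      have := hp.two_le
      omega
    rcases hp23 with rfl | rfl
    · refine ⟨1, key 1 (by omega) ?_⟩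
      have e : n - (1 ^ 2 + b * 1 + c) = n - 1 - (b + c) := by ring
      rw [e]
      omega
    · by_cases h6 : ((3 : ℕ) : ℤ) ∣ n - (1 ^ 2 + b * 1 + c)
      · refine ⟨2, key 2 (by omega) (fun h7 => h3 ?_)⟩
        have e8 := dvd_sub h6 h7
        have e9 : (n - ((1 : ℤ) ^ 2 + b * 1 + c)) - (n - (2 ^ 2 + b * 2 + c)) = b + 3 := by ring
        rw [e9] at e8
        omega
      · exact ⟨1, key 1 (by omega) h6⟩

lemma sys {H : ℝ} {b c n : ℤ} (h : Par H b c n) (hH : 1 ≤ H) : Sys 2 H (g b c n) where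
  irr i := by
    fin_cases i
    · exact irreducible_X
    · change Irreducible (g b c n 1)
      rw [g1]
      apply quad_irr _ _ _ (by norm_num)
      · rintro p hp ⟨h1, -, -⟩
        have h2 : (p : ℤ) ∣ 1 := (dvd_neg).1 h1
        exact hp.one_lt.ne' (Nat.dvd_one.1 (by exact_mod_cast h2))
      · rintro ⟨y, hy⟩
        have h1 : y * y = b ^ 2 + 4 * (n - c) := by linarith
        have h2 : (2 : ℤ) ∣ y - b := by
          have h3 : (2 : ℤ) ∣ (y - b) * (y + b) := ⟨2 * (n - c), by linear_combination h1⟩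
          rcases Int.prime_two.dvd_or_dvd h3 with h4 | h4
          · exact h4
          · omega
        obtain ⟨m, hm⟩ := h2
        apply h.val m
        have h4 : y = b + 2 * m := by linarith
        rw [h4] at h1
        have h5 : 4 * n = 4 * (m ^ 2 + b * m + c) := by linear_combination -h1
        omega
  deg i := by
    obtain ⟨h1, h2⟩ := degs b c n
    fin_cases i
    · exact h1.ge
    · change 1 ≤ (g b c n 1).natDegree
      omega
  degD i := by
    obtain ⟨h1, h2⟩ := degs b c n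
    fin_cases i
    · change (g b c n 0).natDegree ≤ 2
      omega
    · exact h2.le
  hgt i j := by
    fin_cases i
    · change |(((X : ℤ[X]).coeff j : ℤ) : ℝ)| ≤ H
      rw [coeff_X]
      split_ifs
      · simpa using hH
      · simp
        linarith
    · change |(((g b c n 1).coeff j : ℤ) : ℝ)| ≤ H
      have e : (g b c n 1).coeff j = -(if j = 2 then 1 else 0) - b * (if j = 1 then 1 else 0) +
          (if j = 0 then n - c else 0) := by
        change (C n - (X ^ 2 + C b * X + C c) : ℤ[X]).coeff j = _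
        rw [coeff_sub, coeff_add, coeff_add, coeff_C, coeff_X_pow, coeff_C_mul, coeff_X, coeff_C]
        have h1 : (1 = j) ↔ (j = 1) := eq_comm
        simp only [h1]
        split_ifs <;> ring
      rw [e]
      have h1 := h.hb
      have h2 := h.hn
      rcases Nat.lt_or_ge 2 j with h3 | h3
      · rw [if_neg (by omega), if_neg (by omega), if_neg (by omega)]
        simp
        linarith
      · interval_cases j
        · simp only [if_true, if_neg (by norm_num : ¬ (0 : ℕ) = 2), if_neg (by norm_num : ¬ (0 : ℕ) = 1), neg_zero, mul_zero,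
            sub_zero, zero_add]
          exact h2
        · simp only [if_true, if_neg (by norm_num : ¬ (1 : ℕ) = 2), if_neg (by norm_num : ¬ (1 : ℕ) = 0), neg_zero, mul_one,
            zero_sub, add_zero]
          push_cast
          rw [abs_neg]
          exact h1
        · simp only [if_true, if_neg (by norm_num : ¬ (2 : ℕ) = 1), if_neg (by norm_num : ¬ (2 : ℕ) = 0), mul_zero, sub_zero,
            add_zero]
          push_cast
          rw [abs_neg, abs_one]
          exact hH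
  adm := adm h

lemma noTr (b c n : ℤ) (U : ℝ) : NoTr (g b c n) U := by
  intro i j t ht _
  obtain ⟨h1, h2⟩ := degs b c n
  fin_cases i <;> fin_cases j
  · exact Pool.Agent.Q25.UReg.ne_self (ne_of_eq_of_ne h1 one_ne_zero) t (by omega)
  · exact Pool.Agent.Q25.UReg.ne_of_deg (f := g b c n 0) (g := g b c n 1) t (by omega)
  · exact Pool.Agent.Q25.UReg.ne_of_deg (f := g b c n 1) (g := g b c n 0) t (by omega)
  · exact Pool.Agent.Q25.UReg.ne_self (ne_of_eq_of_ne h2 two_ne_zero) t (by omega)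

lemma root (b c n : ℤ) (p : ℕ) (hp : p.Prime) : ∃ m : ℕ, m < p ∧ ∃ i, (p : ℤ) ∣ (g b c n i).eval (m : ℤ) :=
  ⟨0, hp.pos, 0, by rw [ev0]; simp⟩

/-- **The laws of the almost prime pairs `x`, `n - f(x)`, uniformly in `n` and `f`.** -/
theorem result (E θ : ℝ) (hE : 0 < E) (hθ : 0 < θ) :
    (∀ (l₀ : ℕ) (x₀ ε : ℝ), 0 < ε → ∃ r₀ : ℕ, ∀ r : ℕ, r₀ ≤ r → ∃ X₀ : ℕ, ∀ X : ℕ, X₀ ≤ X →
      ∀ b c n : ℤ, Par ((X : ℝ) ^ E) b c n → ∀ Z Y : ℕ, (X : ℝ) ^ θ ≤ Y →
        PoissonLawP (g b c n) r X Z Y x₀ ε ∧ GapLawP (g b c n) r X Z Y l₀ x₀ ε) ∧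
    ∃ r₀ : ℕ, ∀ r : ℕ, r₀ ≤ r → ∀ ε : ℝ, 0 < ε → ∃ κ : ℝ, 0 < κ ∧ ∀ δ : ℝ, 0 < δ → ∃ B X₀ : ℕ,
      ∀ X : ℕ, X₀ ≤ X → ∀ b c n : ℤ, Par ((X : ℝ) ^ E) b c n → ∀ u Y : ℕ, (X : ℝ) ^ θ ≤ Y → Y ≤ X → Y ≤ u →
        ∀ A : Set ℕ, (∀ x ∈ A, GoodP (g b c n) r X x) →
          (N (Irregular A (VP (g b c n) r X) κ δ B Y) u (u + Y) : ℝ) ≤ ε * (Y * VP (g b c n) r X) := by
  have hone : ∀ X : ℕ, 1 ≤ X → (1 : ℝ) ≤ (X : ℝ) ^ E := fun X hX => Real.one_le_rpow (by exact_mod_cast hX) hE.le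
  constructor
  · intro l₀ x₀ ε hε
    obtain ⟨r₀, hr₀, h⟩ := Pool.Agent.Q25.UReg.poly_laws 2 2 E 1 θ hE one_pos hθ l₀ x₀ ε hε
    refine ⟨r₀, fun r hr => ?_⟩
    obtain ⟨M, hM, hs⟩ := Pool.Agent.Q25.UReg.root_small r (hr₀.trans hr)
    obtain ⟨X₀, hX₀⟩ := Filter.eventually_atTop.1 (((h r hr M).and hs).and (Filter.eventually_ge_atTop 1))
    refine ⟨X₀, fun X hX b c n hp Z Y hY => ?_⟩
    obtain ⟨⟨h1, h2⟩, h3⟩ := hX₀ X hX
    have h4 := sys hp (hone X h3)
    exact h1 (g b c n) h4 (h2 2 2 _ _ h4 (root b c n)) (noTr b c n _) Z Y hY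
  · obtain ⟨r₀, hr₀, h⟩ := Pool.Agent.Q25.UReg.poly_reg 2 2 E θ hE hθ
    refine ⟨r₀, fun r hr ε hε => ?_⟩
    obtain ⟨M, hM, hs⟩ := Pool.Agent.Q25.UReg.root_small r (hr₀.trans hr)
    obtain ⟨κ, hκ, h1⟩ := h r hr M ε hε
    refine ⟨κ, hκ, fun δ hδ => ?_⟩
    obtain ⟨B, hB⟩ := h1 δ hδ
    obtain ⟨X₀, hX₀⟩ := Filter.eventually_atTop.1 ((hB.and hs).and (Filter.eventually_ge_atTop 1))
    refine ⟨B, X₀, fun X hX b c n hp u Y hXY hYX hYu A hA => ?_⟩
    obtain ⟨⟨h1, h2⟩, h3⟩ := hX₀ X hX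
    have h4 := sys hp (hone X h3)
    exact h1 (g b c n) h4 (h2 2 2 _ _ h4 (root b c n)) u Y hXY hYX hYu A hA

end Pool.Agent.Results.MP_d9bc60_nt.UniformLaws
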